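import Pool.Agent.R222.VI.Fin

/-! # Isotropic, scale invariant functions of matrices with positive determinant

A function `w` on the real `2 × 2` matrices with positive determinant which is invariant under
rotations from the left and from the right and under positive dilations is a function of
`‖A‖² / det A`, the quotient of the singular values. -/

set_option autoImplicit false

namespace Pool.Agent.N261.VI

open MeasureTheory Set Filter Topology
open Pool.Agent.W360.MQ (cab)

/-- the rotation by the angle `θ` -/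
noncomputable def rot (θ : ℝ) : Matrix (Fin 2) (Fin 2) ℝ :=
  !![Real.cos θ, -Real.sin θ; Real.sin θ, Real.cos θ]

/-- the quantities `a`, `b` of a real matrix, as complex numbers -/
theorem cab_re_im (A : Matrix (Fin 2) (Fin 2) ℝ) :
    (cab A).1.re = (A 0 0 + A 1 1) / 2 ∧ (cab A).1.im = (A 1 0 - A 0 1) / 2 ∧
      (cab A).2.re = (A 0 0 - A 1 1) / 2 ∧ (cab A).2.im = (A 1 0 + A 0 1) / 2 := by
  unfold cab
  have h : ∀ x y : ℝ, (((x : ℝ) + (y : ℝ) * Complex.I) / 2 : ℂ) = ⟨x / 2, y / 2⟩ := by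
    intro x y
    apply Complex.ext <;> simp
  refine ⟨?_, ?_, ?_, ?_⟩ <;> simp only [h]

/-- **singular value decomposition** in terms of rotations -/
theorem svd (A : Matrix (Fin 2) (Fin 2) ℝ) : ∃ φ ψ : ℝ,
    A = rot φ * !![‖(cab A).1‖ + ‖(cab A).2‖, 0; 0, ‖(cab A).1‖ - ‖(cab A).2‖] * rot ψ := by
  obtain ⟨h1, h2, h3, h4⟩ := cab_re_im A
  set a := (cab A).1 with ha
  set b := (cab A).2 with hb
  refine ⟨(Complex.arg a + Complex.arg b) / 2, (Complex.arg a - Complex.arg b) / 2, ?_⟩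
  set φ := (Complex.arg a + Complex.arg b) / 2 with hφ
  set ψ := (Complex.arg a - Complex.arg b) / 2 with hψ
  have ea : Complex.arg a = φ + ψ := by rw [hφ, hψ]; ring
  have eb : Complex.arg b = φ - ψ := by rw [hφ, hψ]; ring
  have q1 := Complex.norm_mul_cos_arg a
  have q2 := Complex.norm_mul_sin_arg a
  have q3 := Complex.norm_mul_cos_arg b
  have q4 := Complex.norm_mul_sin_arg b
  rw [ea, Real.cos_add] at q1
  rw [ea, Real.sin_add] at q2
  rw [eb, Real.cos_sub] at q3
  rw [eb, Real.sin_sub] at q4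
  unfold rot
  ext i j
  fin_cases i <;> fin_cases j <;>
    simp [Matrix.mul_apply, Fin.sum_univ_two] <;> linarith

/-- an isotropic and scale invariant function is a function of the quotient of the singular
values -/
theorem iso_eq (w : Matrix (Fin 2) (Fin 2) ℝ → ℝ)
    (hrot : ∀ A, 0 < A.det → ∀ φ ψ, w (rot φ * A * rot ψ) = w A)
    (hdil : ∀ A, 0 < A.det → ∀ c : ℝ, 0 < c → w (c • A) = w A)
    (A : Matrix (Fin 2) (Fin 2) ℝ) (hA : 0 < A.det) :
    w A = w !![(‖(cab A).1‖ + ‖(cab A).2‖) / (‖(cab A).1‖ - ‖(cab A).2‖), 0; 0, 1] := by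
  obtain ⟨φ, ψ, h⟩ := svd A
  have hc := (Pool.Agent.Y273.VI.det_cab A).1 hA
  set s := ‖(cab A).1‖ + ‖(cab A).2‖ with hs
  set v := ‖(cab A).1‖ - ‖(cab A).2‖ with hv
  have hv0 : 0 < v := by rw [hv]; linarith
  have hs0 : 0 < s := by rw [hs]; linarith [norm_nonneg (cab A).2]
  have hd : 0 < (!![s, 0; 0, v] : Matrix (Fin 2) (Fin 2) ℝ).det := by
    rw [Matrix.det_fin_two_of]
    nlinarith [mul_pos hs0 hv0]
  have hd2 : 0 < (!![s / v, 0; 0, 1] : Matrix (Fin 2) (Fin 2) ℝ).det := by
    rw [Matrix.det_fin_two_of]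
    have := div_pos hs0 hv0
    linarith
  have e : (!![s, 0; 0, v] : Matrix (Fin 2) (Fin 2) ℝ) = v • !![s / v, 0; 0, 1] := by
    ext i j
    fin_cases i <;> fin_cases j <;> simp
    field_simp
  calc w A = w (rot φ * !![s, 0; 0, v] * rot ψ) := by rw [← h]
    _ = w !![s, 0; 0, v] := hrot _ hd _ _
    _ = w !![s / v, 0; 0, 1] := by rw [e, hdil _ hd2 _ hv0]

end Pool.Agent.N261.VI
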